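import Pool.Agent.Helper95.HS.Stmts

/-!
# Heavy nuclei, any number: the multi-scale argument with screening. Statements of the rows
(part C: double commutators)
-/

set_option autoImplicit false

namespace Pool.Agent.Helper95.HV

open MeasureTheory Filter Pool.Agent.Helper95.PW Pool.Agent.Helper95.LN Pool.Agent.Helper95.CF

/-- charges between `0` and `z`, separation `d ≤ 1` -/
structure Dat (d z : ℝ) (n : ℕ) {M : ℕ} (X : Fin M → R3) (Z : Fin M → ℝ) : Prop where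
  d0 : 0 < d
  d1 : d ≤ 1
  z1 : 1 ≤ z
  sep : Sep X d
  nuc : Nuc n Z
  le : ∀ j, Z j ≤ z

/-- the local quantity that bounds all electrostatic terms at the configuration `x` -/
noncomputable def Loc {n M : ℕ} (d z : ℝ) (X : Fin M → R3) (Z : Fin M → ℝ) (x : Cf n) : ℝ :=
  z ^ 2 * M + Dn (d / 8) X Z x + Rem (d / 8) x + z * ∑ k, near1 X d (x k)

/-- the same for a wave function -/
noncomputable def YY {n M : ℕ} (C d z : ℝ) (X : Fin M → R3) (Z : Fin M → ℝ) (u : Wf n) : ℝ :=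
  QM X Z u - kin u + nucR X Z * PW.sq u + C * (z ^ 2 * M + z * one (near1 X d) u)

/-- row LOCY (ES1X KK AED QHM INTM): from ES1X and `n ≤ z M` -/
def ST_LOCY : Prop := ∀ d : ℝ, 0 < d → d ≤ 1 → ∃ C0 C : ℝ, 0 < C0 ∧ 0 < C ∧
  ∀ (z : ℝ) (n M : ℕ) (X : Fin M → R3) (Z : Fin M → ℝ), Dat d z n X Z →
  (∀ x : Cf n, Dist X x → 0 ≤ Dn (d / 8) X Z x ∧ 0 ≤ Rem (d / 8) x ∧
    Loc d z X Z x ≤ C0 * (Vc X Z x + C0 * (z ^ 2 * M + z * ∑ k, near1 X d (x k)))) ∧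
  ∀ u : Wf n, Sm u → PW.sq u ≤ 2 → 0 ≤ YY C d z X Z u ∧
    (∀ s, Integrable (fun x : Cf n =>
      (Vc X Z x + C0 * (z ^ 2 * M + z * ∑ k, near1 X d (x k))) * u s x ^ 2)) ∧
    C0 * ∑ s, ∫ x, (Vc X Z x + C0 * (z ^ 2 * M + z * ∑ k, near1 X d (x k))) * u s x ^ 2 ≤
      C * YY C d z X Z u

/-- row NBZ (GRD PHA PHB PHC DEX; as Helper47/LN/NB.lean) -/
def ST_NBZ : Prop := ∀ d : ℝ, 0 < d → d ≤ 1 → ∃ C : ℝ, 0 < C ∧ ∀ (z : ℝ) (n M : ℕ)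
  (X : Fin M → R3) (Z : Fin M → ℝ) (x : Cf n), Dat d z n X Z →
  ∑ i, cnt X (3 / 2 * d) x i ^ 2 ≤ C * (z ^ 2 * M + Dn (d / 8) X Z x)

/-- row FFZ (MVP PHA PHB PHC NBZ DEX; as Helper76/LN/FF.lean) -/
def ST_FFZ : Prop := ∀ d : ℝ, 0 < d → d ≤ 1 → ∃ C : ℝ, 0 < C ∧ ∀ (z : ℝ) (n M : ℕ)
  (X : Fin M → R3) (Z : Fin M → ℝ) (x : Cf n), Dat d z n X Z →
  ∃ e : Fin M → ℝ, (∀ i m y, nr (y - X i) ≤ d → |farE d X Z x i m y| ≤ e i) ∧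
  ∑ i, e i ^ 2 ≤ C * (z ^ 2 * M + Dn (d / 8) X Z x)

/-- the quadratic form of the second derivative of `1/|ξ|` -/
noncomputable def Tq (ξ v w : R3) : ℝ :=
  3 * (∑ m, v m * ξ m) * (∑ m, w m * ξ m) / nr ξ ^ 5 - (∑ m, v m * w m) / nr ξ ^ 3

/-- row FGZ (MVP PHA PHB PHC): derivative of the far field: apply MVP with radius `d / 2` to the
derivative of the smeared far field `h` (see FF) and integrate by parts: `∫ |∇ et| ≤ C`. The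
left side is `-(v · ∇)(w · farE)` at `y`. -/
def ST_FGZ : Prop := ∀ d : ℝ, 0 < d → d ≤ 1 → ∃ C : ℝ, 0 < C ∧ ∀ (n M : ℕ)
  (X : Fin M → R3) (Z : Fin M → ℝ) (x : Cf n) (i : Fin M) (e K : ℝ) (v w y : R3), Sep X d →
  (∀ m y, nr (y - X i) ≤ d → |farE d X Z x i m y| ≤ e) → (∀ m, |v m| ≤ K) → (∀ m, |w m| ≤ K) →
  nr (y - X i) ≤ d / 2 →
  |(∑ l, if nr (x l - X i) < 3 / 2 * d then 0 else Tq (y - x l) v w) -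
    ∑ j, if j = i then 0 else Z j * Tq (y - X j) v w| ≤ C * K ^ 2 * e

/-- row DIP (PHA PHB PHC MVP): energy of dipoles in different balls. With `b = d / 8` and
`Φ w = ∑ k, a k · ∇ (ph b) (w - x k)`: `∫ |∇Φ|^2 = -∫ ∇Φ · (∑ k, et b (w - x k) a k)`, so
`∫ |∇Φ|^2 ≤ ∫ |∑ k, et b (w - x k) a k|^2 ≤ C K^2 ∑ i, (cnt i)^2`; expand `∫ |∇Φ|^2`: pairs in
different balls give exactly `-kap * Tq` (mean value property), pairs in one ball are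
`≤ C K^2 / b^3` in absolute value -/
def ST_DIP : Prop := ∀ d : ℝ, 0 < d → d ≤ 1 → ∃ C : ℝ, 0 < C ∧ ∀ (n M : ℕ)
  (X : Fin M → R3) (x : Cf n) (a : Fin n → R3) (K : ℝ), Sep X d → (∀ k m, |a k m| ≤ K) →
  (∀ k, (∀ i, d / 2 < nr (x k - X i)) → a k = 0) →
  -(∑ k, ∑ l, if k < l ∧ d < nr (x k - x l) then Tq (x k - x l) (a k) (a l) else 0) ≤
    C * K ^ 2 * ∑ i, cnt X (3 / 2 * d) x i ^ 2

/-- gradient as a vector -/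
noncomputable def gv (g : R3 → ℝ) (y : R3) : R3 := fun i => pd i g y

/-- `Hess g (∇ g)` -/
noncomputable def gq (g : R3 → ℝ) (y : R3) : R3 := fun i => ∑ l, pd l (pd i g) y * pd l g y

/-- second derivative of the potential energy along the field `∇ g` -/
noncomputable def D2 {n M : ℕ} (X : Fin M → R3) (Z : Fin M → ℝ) (g : R3 → ℝ) (x : Cf n) : ℝ :=
  (∑ k, ∑ l, if k < l then
    Tq (x k - x l) (gv g (x k) - gv g (x l)) (gv g (x k) - gv g (x l)) -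
      (∑ i, (gq g (x k) i - gq g (x l) i) * (x k i - x l i)) / nr (x k - x l) ^ 3 else 0) +
  ∑ k, ∑ j, Z j * ((∑ i, gq g (x k) i * (x k i - X j i)) / nr (x k - X j) ^ 3 -
    Tq (x k - X j) (gv g (x k)) (gv g (x k)))

/-- row DBS (VID IBP PAN STB INTM HA2 HA3): the identity without singularity at the nuclei. Use VID twice:
`∑∫ V ((Pg u)^2 + Pg (Pg u) u) = 2 ∑∫ Vir g * (u * Pg u) `, ... `= 1/2 ∑∫ D2 u^2` -/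
def ST_DBS : Prop := ∀ (n M : ℕ) (X : Fin M → R3) (Z : Fin M → ℝ) (g : R3 → ℝ) (ρ : ℝ)
  (u : Wf n), ContDiff ℝ (⊤ : ℕ∞) g → HasCompactSupport g → 0 < ρ →
  (∀ j y, nr (y - X j) < ρ → ∀ i, pd i g y = 0) → Sm u →
  (∀ s, Integrable (fun x : Cf n => D2 X Z g x * u s x ^ 2)) ∧
  ∑ s, ∫ x, (rep x - ∑ k, pot X Z (x k)) * (Pg g (u s) x ^ 2 + Pg g (Pg g (u s)) x * u s x) =
    1 / 2 * ∑ s, ∫ x, D2 X Z g x * u s x ^ 2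

/-- row DBI (IBP PAN STB INTM HA2 HA3): fields equal to `e_m` near the nuclei. Regularize the
attraction `1/r` by `1/ρ_s + s^2/(2 ρ_s^3)`, `ρ_s = sqrt (r^2 + s^2)`, whose Laplacian is `-mor s`;
`s → 0`. See Helper83/PN/PINS.lean. -/
def ST_DBI : Prop := ∀ (n M : ℕ) (X : Fin M → R3) (Z : Fin M → ℝ) (g : Fin 3 → R3 → ℝ)
  (ρ B1 s0 : ℝ) (u : Wf n), (∀ j, 0 ≤ Z j) → Function.Injective X →
  (∀ m, ContDiff ℝ (⊤ : ℕ∞) (g m)) → (∀ m, HasCompactSupport (g m)) → 0 < ρ → 0 < s0 →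
  (∀ m j y, nr (y - X j) < ρ → ∀ i, pd i (g m) y = if i = m then 1 else 0) → Sm u →
  (∀ s : ℝ, 0 < s → s ≤ s0 → ∑ j, Z j * one (fun y => mor s (y - X j)) u ≤ B1) →
  (∀ s, Integrable (fun x : Cf n => (∑ m, D2 X Z (g m) x) * u s x ^ 2)) ∧
  ∑ m, ∑ s, ∫ x, (rep x - ∑ k, pot X Z (x k)) *
      (Pg (g m) (u s) x ^ 2 + Pg (g m) (Pg (g m) (u s)) x * u s x) ≤
    1 / 2 * (∑ s, ∫ x, (∑ m, D2 X Z (g m) x) * u s x ^ 2) + B1 / 2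

/-- row V2S (NBZ FFZ FGZ DIP KK): fields supported in shells around the nuclei -/
def ST_V2S : Prop := ∀ d : ℝ, 0 < d → d ≤ 1 → ∃ C : ℝ, 0 < C ∧ ∀ (z K ρ : ℝ) (n M : ℕ)
  (X : Fin M → R3) (Z : Fin M → ℝ) (g : R3 → ℝ) (x : Cf n), Dat d z n X Z → 1 ≤ K → 0 < ρ →
  ρ ≤ d → Scale g K ρ → (∀ j y, nr (y - X j) < ρ → ∀ i, pd i g y = 0) →
  (∀ y, (∀ j, d / 2 < nr (y - X j)) → ∀ i, pd i g y = 0) → Dist X x →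
  D2 X Z g x ≤ C * K ^ 2 / ρ ^ 2 * Loc d z X Z x

/-- row V2I (NBZ FFZ FGZ DIP KK): fields equal to `e_m` near the nuclei; the own nucleus cancels
in the sum over `m` -/
def ST_V2I : Prop := ∀ d : ℝ, 0 < d → d ≤ 1 → ∃ C : ℝ, 0 < C ∧ ∀ (z K ρ : ℝ) (n M : ℕ)
  (X : Fin M → R3) (Z : Fin M → ℝ) (g : Fin 3 → R3 → ℝ) (x : Cf n), Dat d z n X Z → 1 ≤ K →
  0 < ρ → ρ ≤ d → (∀ m, Scale (g m) K ρ) →
  (∀ m j y, nr (y - X j) < ρ → ∀ i, pd i (g m) y = if i = m then 1 else 0) →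
  (∀ m y, (∀ j, d / 2 < nr (y - X j)) → ∀ i, pd i (g m) y = 0) → Dist X x →
  ∑ m, D2 X Z (g m) x ≤ C * K ^ 2 / ρ ^ 2 * Loc d z X Z x

/-- cut off functions at all nuclei -/
noncomputable def gN {M : ℕ} (X : Fin M → R3) (m : Fin 3) (ρ : ℝ) (y : R3) : ℝ :=
  ∑ j, gm m ρ (y - X j)

/-- row FLD (CUT) -/
def ST_FLD : Prop := ∃ K : ℝ, 1 ≤ K ∧ ∀ (M : ℕ) (X : Fin M → R3) (d r ρ : ℝ) (m : Fin 3),
  0 < d → Sep X d → 0 < r → r ≤ ρ → ρ ≤ d / 4 →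
  Scale (gN X m ρ) K ρ ∧ Scale (fun y => gN X m ρ y - gN X m r y) K r ∧
  (∀ j y, nr (y - X j) < ρ → ∀ i, pd i (gN X m ρ) y = if i = m then 1 else 0) ∧
  (∀ y, (∀ j, 2 * ρ < nr (y - X j)) → ∀ i, pd i (gN X m ρ) y = 0) ∧
  (∀ j y, nr (y - X j) < r → ∀ i, pd i (fun y => gN X m ρ y - gN X m r y) y = 0)

/-- row V2R (NBZ FFZ FGZ DIP KK FLD CUT): the field `e_m` outside the balls. With
`α = ∇ gN`, `G = ∇ gm`: `T(δG - δα, δG - δα)`; the terms with `δG` are `O(1/L)`; the terms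
`T(δα, δα)` as in V2I; `Hess gN (e_m)` as `gq`; `2 Z_j T(e_m, α)` is not screened:
`≤ C z (1 / d^3 + Λ)` for each electron in the balls; `∑_m T(e_m, e_m) = 0` -/
def ST_V2R : Prop := ∀ d : ℝ, 0 < d → d ≤ 1 → ∃ C : ℝ, 0 < C ∧ ∀ (z L Λ : ℝ) (n M : ℕ)
  (X : Fin M → R3) (Z : Fin M → ℝ) (x : Cf n), Dat d z n X Z → 1 ≤ L → 0 ≤ Λ →
  (∀ j, 2 * nr (X j) + 4 ≤ L) →
  (∀ i, ∑ j, (if j = i then 0 else 1 / nr (X i - X j) ^ 3) ≤ Λ) → Dist X x →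
  ∑ m, D2 X Z (fun y => gm m L y - gN X m (d / 8) y) x ≤
    C * (Loc d z X Z x + z * (1 + Λ) * n) + C / L * (rep x + ∑ k, pot X Z (x k))

/-- row MSZ (DBS V2S LOCY CSQM STB AIDM CIDM KINM ERR QHM INTM AED; see Helper*/PM/SHLM,
BIDM): momentum in a shell -/
def ST_MSZ : Prop := ∀ d : ℝ, 0 < d → d ≤ 1 → ∃ C : ℝ, 0 < C ∧ ∀ (z K ρ B E : ℝ) (n M : ℕ)
  (X : Fin M → R3) (Z : Fin M → ℝ) (g : R3 → ℝ) (S : Set R3), Dat d z n X Z →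
  LowM n X Z E → 1 ≤ K → 0 < ρ → ρ ≤ d → Scale g K ρ →
  (∀ j y, nr (y - X j) < ρ → ∀ i, pd i g y = 0) →
  (∀ y, (∀ j, d / 2 < nr (y - X j)) → ∀ i, pd i g y = 0) →
  IsClosed S → (∀ y, y ∉ S → ∀ i, pd i g y = 0) →
  ∃ C' : ℝ, 0 < C' ∧ ∀ u : Wf n, Sm u → Anti u → PW.sq u ≤ 2 →
  kin u ≤ B → pair u ≤ B → one (pot X Z) u ≤ B → dd u ≤ B → resM X Z E u ≤ 1 →
  PW.sq (fun s => Pg g (u s)) ^ 2 ≤ C * K ^ 4 * (one (ind S) u *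
    ((kin u + YY C d z X Z u) / ρ ^ 2 + one (ind S) u / ρ ^ 4)) +
    C' * Real.sqrt (resM X Z E u)

/-- row MIZ (DBI V2I LOCY CSQM STB AIDM CIDM KINM ERR QHM INTM AED MORM; see
Helper40/PN/INLJ.lean): momentum near the nuclei -/
def ST_MIZ : Prop := ∀ d : ℝ, 0 < d → d ≤ 1 → ∃ C : ℝ, 0 < C ∧ ∀ (z K ρ B E : ℝ) (n M : ℕ)
  (X : Fin M → R3) (Z : Fin M → ℝ) (g : Fin 3 → R3 → ℝ) (S : Set R3), Dat d z n X Z →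
  LowM n X Z E → 1 ≤ K → 0 < ρ → ρ ≤ d → (∀ m, Scale (g m) K ρ) →
  (∀ m j y, nr (y - X j) < ρ → ∀ i, pd i (g m) y = if i = m then 1 else 0) →
  (∀ m y, (∀ j, d / 2 < nr (y - X j)) → ∀ i, pd i (g m) y = 0) →
  IsClosed S → (∀ m y, y ∉ S → ∀ i, pd i (g m) y = 0) →
  ∃ C' : ℝ, 0 < C' ∧ ∀ u : Wf n, Sm u → Anti u → PW.sq u ≤ 2 →
  kin u ≤ B → pair u ≤ B → one (pot X Z) u ≤ B → dd u ≤ B → resM X Z E u ≤ 1 →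
  ∀ B1 s0 : ℝ, 0 ≤ B1 → 0 < s0 →
  (∀ s : ℝ, 0 < s → s ≤ s0 → ∑ j, Z j * one (fun y => mor s (y - X j)) u ≤ B1) →
  ∀ m, PW.sq (fun s => Pg (g m) (u s)) ^ 2 ≤ C * K ^ 4 * (one (ind S) u *
    ((kin u + YY C d z X Z u) / ρ ^ 2 + one (ind S) u / ρ ^ 4 + B1)) +
    C' * Real.sqrt (resM X Z E u)

/-- row MRZ (DBS V2R LOCY FLD CUT CSQM STB AIDM CIDM KINM ERR QHM INTM AED): the rest -/
def ST_MRZ : Prop := ∀ d : ℝ, 0 < d → d ≤ 1 → ∃ C : ℝ, 0 < C ∧ ∀ (z L Λ B E : ℝ) (n M : ℕ)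
  (X : Fin M → R3) (Z : Fin M → ℝ), Dat d z n X Z → LowM n X Z E → 1 ≤ L → 0 ≤ Λ →
  (∀ j, 2 * nr (X j) + 4 ≤ L) →
  (∀ i, ∑ j, (if j = i then 0 else 1 / nr (X i - X j) ^ 3) ≤ Λ) →
  ∃ C' : ℝ, 0 < C' ∧ ∀ u : Wf n, Sm u → Anti u → PW.sq u ≤ 2 →
  kin u ≤ B → pair u ≤ B → one (pot X Z) u ≤ B → dd u ≤ B → resM X Z E u ≤ 1 →
  ∀ m, PW.sq (fun s => Pg (fun y => gm m L y - gN X m (d / 8) y) (u s)) ^ 2 ≤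
    C * (n * (kin u + YY C d z X Z u + z * (1 + Λ) * n + (pair u + one (pot X Z) u) / L)) +
    C' * Real.sqrt (resM X Z E u)

/-- row VIRZ (NBZ FFZ KK; as Helper53/LN/VIR.lean) -/
def ST_VIRZ : Prop := ∀ d A : ℝ, 0 < d → d ≤ 1 → 1 ≤ A → ∃ C : ℝ, 0 < C ∧ ∀ (z : ℝ) (n M : ℕ)
  (X : Fin M → R3) (Z : Fin M → ℝ) (g : R3 → ℝ) (x : Cf n), Dat d z n X Z →
  ContDiff ℝ (⊤ : ℕ∞) g →
  (∀ i y, (∀ j, d ≤ nr (y - X j)) → pd i g y = 0) → (∀ i y, |pd i g y| ≤ A) →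
  (∀ (y : R3) (ξ : Fin 3 → ℝ), -(A * ∑ i, ξ i ^ 2) ≤ ∑ i, ∑ l, pd i (pd l g) y * ξ i * ξ l) →
  Dist X x → -(C * (Loc d z X Z x + z * ∑ k, near2 X d (x k))) ≤ Vir X Z g x

/-- row MLZ (MGS MGX AED KID VID VIRZ LOCY PGB HLOC PAN STB INTM; as Helper14/LN/MLL.lean) -/
def ST_MLZ : Prop := ∀ d : ℝ, 0 < d → d ≤ 1 → ∃ C : ℝ, 0 < C ∧ ∀ (z E B0 : ℝ) (n M : ℕ)
  (X : Fin M → R3) (Z : Fin M → ℝ), Dat d z n X Z → 1 ≤ M →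
  ∃ C' : ℝ, 0 < C' ∧ ∀ u : Wf n, Sm u → PW.sq u ≤ 2 → kin u ≤ B0 → ∀ s : ℝ, 0 < s → s ≤ d →
  ∑ j, Z j * one (fun y => mor s (y - X j)) u ≤
    C * z * (z * kin u + z * n + YY C d z X Z u) + C' * Real.sqrt (resM X Z E u)

/-- row PKL (packing with logarithm) -/
def ST_PKL : Prop := ∀ d : ℝ, 0 < d → ∃ C : ℝ, 0 < C ∧ ∀ (M : ℕ) (X : Fin M → R3) (i : Fin M),
  Sep X d → ∑ j, (if j = i then 0 else 1 / nr (X i - X j) ^ 3) ≤ C * (1 + Real.log M)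

/-! ### bounds for ground states -/

/-- interface (Helper26): Pauli -/
def ST_NRL : Prop := ∃ C : ℝ, 0 < C ∧ ∀ (n M : ℕ) (X : Fin M → R3) (d ρ : ℝ) (u : Wf n), 0 < d →
  Sep X d → 0 < ρ → ρ ≤ d → Sm u → Anti u → PW.sq u ≤ 2 →
  ∑ j, one (ballc (X j) ρ) u ≤ C * (M + (M : ℝ) ^ (2 / 5 : ℝ) * (kin u * ρ ^ 2) ^ (3 / 5 : ℝ))

/-- interface (Helper26): upper bounds -/
def ST_TUPZ : Prop := ∀ d : ℝ, 0 < d → d ≤ 1 → ∃ C : ℝ, 0 < C ∧ ∀ (z E : ℝ) (n M : ℕ)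
  (X : Fin M → R3) (Z : Fin M → ℝ) (u : Wf n), Dat d z n X Z → 1 ≤ M → E + nucR X Z ≤ 0 →
  Sm u → Anti u → PW.sq u ≤ 2 → resM X Z E u ≤ 1 / 2 →
  kin u ≤ C * (M * z ^ (7 / 3 : ℝ)) ∧ z * one (near1 X d) u ≤ C * (M * z ^ (7 / 3 : ℝ))

/-- interface (Helper50): lower bound of the kinetic energy -/
def ST_TLZ : Prop := ∀ d κ : ℝ, 0 < d → d ≤ 1 → 1 ≤ κ → ∃ c z0 : ℝ, 0 < c ∧ 1 ≤ z0 ∧
  ∀ (z E : ℝ) (n M : ℕ) (X : Fin M → R3) (Z : Fin M → ℕ) (φ : Wf n)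
  (G : Fin n → Fin 3 → Wf n), Dat d z n X (fun j => (Z j : ℝ)) → 1 ≤ M → z0 ≤ z →
  (∀ j, z ≤ κ * Z j) → GroundM n X (fun j => (Z j : ℝ)) E φ G →
  E + nucR X (fun j => (Z j : ℝ)) ≤ 0 ∧ c * (M * z ^ (7 / 3 : ℝ)) ≤ kinG G

/-- row PSZ (MSZ NRL TUPZ FLD APXM LMTM QHM INTM; see Helper*/PM/PIEM) -/
def ST_PSZ : Prop := ∀ d : ℝ, 0 < d → d ≤ 1 → ∃ C : ℝ, 0 < C ∧ ∀ (z E r ν : ℝ) (n M : ℕ)
  (X : Fin M → R3) (Z : Fin M → ℝ) (φ : Wf n) (G : Fin n → Fin 3 → Wf n) (m : Fin 3),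
  Dat d z n X Z → 1 ≤ M → E + nucR X Z ≤ 0 → GroundM n X Z E φ G → 0 < r → 2 * r ≤ d / 4 →
  ν = 1 + (z ^ (7 / 3 : ℝ) * r ^ 2) ^ (3 / 5 : ℝ) →
  PW.sq (PG (fun y => gN X m (2 * r) y - gN X m r y) φ G) ^ 2 ≤
    C * (M : ℝ) ^ 2 * (ν * (z ^ (7 / 3 : ℝ) / r ^ 2 + ν / r ^ 4))

/-- row PIZ (MIZ MLZ NRL TUPZ FLD APXM LMTM QHM INTM; see Helper*/PM/INNM) -/
def ST_PIZ : Prop := ∀ d : ℝ, 0 < d → d ≤ 1 → ∃ C : ℝ, 0 < C ∧ ∀ (z E r ν : ℝ) (n M : ℕ)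
  (X : Fin M → R3) (Z : Fin M → ℝ) (φ : Wf n) (G : Fin n → Fin 3 → Wf n) (m : Fin 3),
  Dat d z n X Z → 1 ≤ M → E + nucR X Z ≤ 0 → GroundM n X Z E φ G → 0 < r → r ≤ d / 4 →
  ν = 1 + (z ^ (7 / 3 : ℝ) * r ^ 2) ^ (3 / 5 : ℝ) →
  PW.sq (PG (gN X m r) φ G) ^ 2 ≤ C * (M : ℝ) ^ 2 *
    (ν * (z ^ (7 / 3 : ℝ) / r ^ 2 + ν / r ^ 4 + z ^ (13 / 3 : ℝ)))

/-- row PRZ (MRZ PKL TUPZ LIMG CUT APXM LMTM QHM INTM): `L → ∞` -/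
def ST_PRZ : Prop := ∀ d : ℝ, 0 < d → d ≤ 1 → ∃ C : ℝ, 0 < C ∧ ∀ (z E : ℝ) (n M : ℕ)
  (X : Fin M → R3) (Z : Fin M → ℝ) (φ : Wf n) (G : Fin n → Fin 3 → Wf n) (m : Fin 3),
  Dat d z n X Z → 1 ≤ M → E + nucR X Z ≤ 0 → GroundM n X Z E φ G →
  PW.sq (fun s x => (∑ k, G k m s x) - PG (gN X m (d / 8)) φ G s x) ^ 2 ≤
    C * (M : ℝ) ^ 2 * (z ^ (10 / 3 : ℝ) * (1 + Real.log M))

/-- row SUMZ (PSZ PIZ PRZ FLD; see Helper*/PM/MOMM): scales `r = d / 8 / 2^i`, down to about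
`1 / z` -/
def ST_SUMZ : Prop := ∀ d : ℝ, 0 < d → d ≤ 1 → ∃ C : ℝ, 0 < C ∧ ∀ (z E : ℝ) (n M : ℕ)
  (X : Fin M → R3) (Z : Fin M → ℝ) (φ : Wf n) (G : Fin n → Fin 3 → Wf n),
  Dat d z n X Z → 1 ≤ M → E + nucR X Z ≤ 0 → GroundM n X Z E φ G → Real.log M ≤ z →
  mom G ≤ C * (M * z ^ (34 / 15 : ℝ))

/-- row FINZ (SUMZ TLZ) -/
def ST_FINZ : Prop := ∀ d κ : ℝ, 0 < d → 1 ≤ κ → ∃ z0 : ℝ, 1 ≤ z0 ∧ ∀ (z E : ℝ) (n M : ℕ)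
  (X : Fin M → R3) (Z : Fin M → ℕ) (φ : Wf n) (G : Fin n → Fin 3 → Wf n),
  Sep X d → Nuc n (fun j => (Z j : ℝ)) → (∀ j, (Z j : ℝ) ≤ z) → (∀ j, z ≤ κ * Z j) → 1 ≤ M →
  z0 ≤ z → Real.log M ≤ z → GroundM n X (fun j => (Z j : ℝ)) E φ G → mom G ≤ 3 * kinG G

end Pool.Agent.Helper95.HV
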