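import Pool.Agent.Helper95.HV.Fin
import Pool.Agent.Helper26.HW.Stmts

set_option autoImplicit false

namespace Pool.Agent.Helper95.HV

open Pool.Agent.Helper95.PW

theorem heavy0_of (hI : ST_INTM) (hS : Pool.Agent.Helper26.HW.ST_SUMZ0) (hT : ST_TLZ) (κ d : ℝ) (hκ : 1 ≤ κ)
    (hd : 0 < d) : ∃ C z0 : ℝ, 0 < C ∧ 0 < z0 ∧ ∀ (z : ℝ) (n M : ℕ)
    (X : Fin M → R3) (Z : Fin M → ℕ) (E : ℝ) (φ : Wf n) (G : Fin n → Fin 3 → Wf n), 1 ≤ M →
    MolGround n X Z E φ G → z0 ≤ z → (∀ j, z ≤ Z j ∧ (Z j : ℝ) ≤ κ * z) →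
    (∀ i j, i ≠ j → d ≤ nr (X i - X j)) → mom G ≤ C * z ^ (-(1 / 15) : ℝ) * kinG G := by
  have hd1 : 0 < min (d / 4) 1 := lt_min (by positivity) one_pos
  obtain ⟨C, hC, h1⟩ := hS (min (d / 4) 1) hd1 (min_le_right _ _)
  obtain ⟨c, z0, hc, hz0, h2⟩ := hT (min (d / 4) 1) κ hd1 (min_le_right _ _) hκ
  refine ⟨C / c, z0, by positivity, by linarith, ?_⟩
  intro z n M X Z E φ G hM h hz hZ hX
  have z1 : 1 ≤ z := hz0.trans hz
  have zp : 0 < z := by linarith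
  have hκz : z ≤ κ * z := by nlinarith
  have hS' : Sep X (min (d / 4) 1) := by
    intro i j hij
    have a1 := hX i j hij
    have a2 := min_le_left (d / 4) 1
    linarith
  have hD : Dat (min (d / 4) 1) (κ * z) n X (fun j => (Z j : ℝ)) :=
    ⟨hd1, min_le_right _ _, z1.trans hκz, hS', mol_nuc h, fun j => (hZ j).2⟩
  have hG := mol_ground hI h
  obtain ⟨e1, e2⟩ := h2 (κ * z) (E - nuc X Z) n M X Z φ G hD hM (hz.trans hκz)
    (fun j => mul_le_mul_of_nonneg_left (hZ j).1 (by linarith)) hG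
  have e3 := h1 (κ * z) (E - nuc X Z) n M X (fun j => (Z j : ℝ)) φ G hD hM e1 hG
  have kz : 0 < κ * z := by positivity
  have e4 : (κ * z) ^ (34 / 15 : ℝ) = (κ * z) ^ (7 / 3 : ℝ) * (κ * z) ^ (-(1 / 15) : ℝ) := by
    rw [← Real.rpow_add kz]
    norm_num
  have e5 : (κ * z) ^ (-(1 / 15) : ℝ) ≤ z ^ (-(1 / 15) : ℝ) :=
    Real.rpow_le_rpow_of_nonpos zp hκz (by norm_num)
  have M0 : (0 : ℝ) ≤ M := Nat.cast_nonneg M
  calc mom G ≤ C * (M * (κ * z) ^ (34 / 15 : ℝ)) := e3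
    _ = C / c * (κ * z) ^ (-(1 / 15) : ℝ) * (c * (M * (κ * z) ^ (7 / 3 : ℝ))) := by
        rw [e4]
        field_simp
    _ ≤ C / c * z ^ (-(1 / 15) : ℝ) * kinG G := by
        have := kin0 G
        gcongr

end Pool.Agent.Helper95.HV
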