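import Pool.Agent.Helper95.LN.All
import Pool.Agent.Helper97.CF.ES1X
import Pool.Agent.Helper11.CF.PT3
import Pool.Agent.Helper95.HV.Fin0
import Pool.Agent.Helper25.HV.LOCY
import Pool.Agent.Helper21.HV.NBZ
import Pool.Agent.Helper98.HV.FFZ
import Pool.Agent.Helper22.HV.FGZ
import Pool.Agent.Helper12.HV.DIP
import Pool.Agent.Helper55.HV.FLD
import Pool.Agent.Helper32.HV.DBS
import Pool.Agent.Helper19.HV.DBI
import Pool.Agent.Helper27.HV.V2S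
import Pool.Agent.Helper93.HV.V2I
import Pool.Agent.Helper39.HV.VIRZ
import Pool.Agent.Helper7.HV.MLZ
import Pool.Agent.Helper80.HV.MSZ
import Pool.Agent.Helper60.HV.MIZ
import Pool.Agent.Helper24.HX.PCN
import Pool.Agent.Helper64.HW.DIE
import Pool.Agent.Helper59.HW.UNS
import Pool.Agent.Helper39.HW.NE0
import Pool.Agent.Helper94.HW.V2R0
import Pool.Agent.Helper48.HW.MRZ0
import Pool.Agent.Helper59.PW.CUB
import Pool.Agent.Helper25.PW.POI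
import Pool.Agent.Helper85.PW.PAU
import Pool.Agent.Helper26.HV.BRI
import Pool.Agent.Helper43.HT.EXA
import Pool.Agent.Helper9.HT.LAT
import Pool.Agent.Helper3.HT.CRS
import Pool.Agent.Helper47.HT.FST
import Pool.Agent.Helper55.HT.FTA
import Pool.Agent.Helper30.HT.NUM
import Pool.Agent.Helper41.HT.ATM
import Pool.Agent.Helper40.HT.SDF
import Pool.Agent.Helper38.HT.KD2
import Pool.Agent.Helper87.HT.KLI
import Pool.Agent.Helper77.HT.WBD
import Pool.Agent.Helper18.HT.IAB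
import Pool.Agent.Helper4.HT.PTC
import Pool.Agent.Helper9.HT.TRX
import Pool.Agent.Helper55.HT.TRP
import Pool.Agent.Helper38.HT.TLK
import Pool.Agent.Helper90.HT.TLF
import Pool.Agent.Helper36.HV.PSZ
import Pool.Agent.Helper17.HV.PIZ
import Pool.Agent.Helper64.HW.PRZ0
import Pool.Agent.Helper81.HW.SUMZ0

set_option autoImplicit false

namespace Pool.Agent.Helper95.HV

open Pool.Agent.Helper95 Pool.Agent.Helper95.PW Pool.Agent.Helper95.LN Pool.Agent.Helper95.CF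

/-- heavy nuclei -/
theorem allW : ST_INTM ∧ Pool.Agent.Helper26.HW.ST_SUMZ0 ∧ HV.ST_TLZ := by
  have IBP : ST_IBP := Pool.Agent.Helper2.PW.st_IBP
  have STB : ST_STB := Pool.Agent.Helper2.PW.st_STB
  have PAN : ST_PAN := Pool.Agent.Helper2.PW.st_PAN IBP
  have HA1 : ST_HA1 := st_HA1
  have HA2 : ST_HA2 := st_HA2
  have HA3 : ST_HA3 := st_HA3
  have INT : ST_INT := st_INT HA1 HA2
  have INTM : ST_INTM := st_INTM HA3 HA2
  have QHM : ST_QHM := st_QHM IBP INTM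
  have CSQM : ST_CSQM := st_CSQM QHM INTM
  have HFM : ST_HFM := st_HFM
  have AIDM : ST_AIDM := st_AIDM QHM HFM PAN STB INTM
  have CIDM : ST_CIDM := st_CIDM QHM HFM STB INTM
  have KINM : ST_KINM := st_KINM IBP PAN STB
  have POE : ST_POE := Pool.Agent.Helper14.PW.st_POE PAN STB INT HA2
  have ERR : ST_ERR := st_ERR
  have MORM : ST_MORM := st_MORM IBP HA3 INTM QHM
  have APXM : ST_APXM := st_APXM HA3 HA2 INTM
  have LMTM : ST_LMTM := st_LMTM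
  have HLOC : ST_HLOC := st_HLOC HA3
  have PK : ST_PK := st_PK
  have MGB : ST_MGB := st_MGB st_CP st_INN2
  have MGS : ST_MGS := st_MGS MGB
  have KID : ST_KID := st_KID IBP PAN STB
  have PGB : ST_PGB := st_PGB HLOC
  have PINS : ST_PINS := st_PINS PAN STB INTM
  have BINJ : ST_BINJ := st_BINJ QHM PAN STB KINM POE PINS INTM
  have INLJ : ST_INLJ := st_INLJ CSQM STB AIDM CIDM BINJ ERR INTM MORM
  have POTB : ST_POTB := st_POTB PK HLOC INTM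
  have LIMG : ST_LIMG := st_LIMG st_CUT
  have E0 : ST_E0 := st_E0
  have CUT : ST_CUT := st_CUT
  have PHA : ST_PHA := Pool.Agent.Helper24.LN.PHA
  have PHB : ST_PHB := Pool.Agent.Helper49.LN.PHB PHA
  have PHC : ST_PHC := Pool.Agent.Helper33.LN.PHC 
  have MVP : ST_MVP := Pool.Agent.Helper81.LN.MVP PHA PHB PHC
  have EID : ST_EID := Pool.Agent.Helper84.LN.EID PHA PHB PHC
  have KK : ST_KK := Pool.Agent.Helper2.LN.KK MVP PHA PHB PHC
  have GRD : ST_GRD := Pool.Agent.Helper59.LN.GRD PHA PHB PHC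
  have DEX : ST_DEX := Pool.Agent.Helper27.LN.DEX EID KK PHA PHB PHC
  have ES1 : ST_ES1 := Pool.Agent.Helper97.LN.ES1 DEX KK PHA PHC
  have NB : ST_NB := Pool.Agent.Helper47.LN.NB GRD PHA PHB PHC DEX
  have FF : ST_FF := Pool.Agent.Helper76.LN.FF MVP PHA PHB PHC NB DEX
  have VIR : ST_VIR := Pool.Agent.Helper53.LN.VIR ES1 NB FF KK
  have VID : ST_VID := Pool.Agent.Helper51.LN.VID IBP HA2 HA3 INT INTM
  have PK4 : ST_PK4 := Pool.Agent.Helper78.LN.PK4 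
  have MGX : ST_MGX := Pool.Agent.Helper99.LN.MGX MGB PK4
  have AED : ST_AED := Pool.Agent.Helper55.LN.AED 
  have MLL : ST_MLL := Pool.Agent.Helper14.LN.MLL MGS MGX AED KID VID VIR PGB HLOC PAN STB INTM
  have TRE : ST_TRE := Pool.Agent.Helper80.LN.TRE 
  have ORB : ST_ORB := Pool.Agent.Helper9.LN.ORB PHC
  have PT1 : ST_PT1 := Pool.Agent.Helper11.LN.PT1 MVP PHA PHB PHC
  have PT2 : ST_PT2 := Pool.Agent.Helper1.LN.PT2 PT1 PHC
  have EB : ST_EB := Pool.Agent.Helper89.LN.EB TRE ORB PT1 PT2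
  have TBL : ST_TBL := Pool.Agent.Helper21.LN.TBL ES1 AED HLOC QHM INTM KK
  have MTL : ST_MTL := Pool.Agent.Helper39.LN.MTL MLL TBL INLJ E0 POTB LIMG CUT APXM LMTM QHM INTM
  have INN2 : ST_INN2 := st_INN2
  have PT3 : ST_PT3 := Pool.Agent.Helper11.CF.PT3 PT1 PHC
  have ES1X : ST_ES1X := Pool.Agent.Helper97.CF.ES1X DEX KK PHA PHC
  have LOCY : HV.ST_LOCY := Pool.Agent.Helper25.HV.LOCY ES1X KK AED QHM INTM
  have NBZ : HV.ST_NBZ := Pool.Agent.Helper21.HV.NBZ GRD PHA PHB PHC DEX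
  have FFZ : HV.ST_FFZ := Pool.Agent.Helper98.HV.FFZ MVP PHA PHB PHC NBZ DEX
  have FGZ : HV.ST_FGZ := Pool.Agent.Helper22.HV.FGZ MVP PHA PHB PHC
  have DIP : HV.ST_DIP := Pool.Agent.Helper12.HV.DIP MVP PHA PHB PHC
  have FLD : HV.ST_FLD := Pool.Agent.Helper55.HV.FLD CUT
  have DBS : HV.ST_DBS := Pool.Agent.Helper32.HV.DBS VID IBP PAN STB INTM HA2 HA3
  have DBI : HV.ST_DBI := Pool.Agent.Helper19.HV.DBI IBP PAN STB INTM HA2 HA3
  have V2S : HV.ST_V2S := Pool.Agent.Helper27.HV.V2S NBZ FFZ FGZ DIP KK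
  have V2I : HV.ST_V2I := Pool.Agent.Helper93.HV.V2I NBZ FFZ FGZ DIP KK
  have VIRZ : HV.ST_VIRZ := Pool.Agent.Helper39.HV.VIRZ NBZ FFZ KK
  have MLZ : HV.ST_MLZ := Pool.Agent.Helper7.HV.MLZ MGS MGX AED KID VID VIRZ LOCY PGB HLOC PAN STB INTM
  have MSZ : HV.ST_MSZ := Pool.Agent.Helper80.HV.MSZ DBS V2S LOCY CSQM STB AIDM CIDM KINM ERR QHM INTM AED PAN IBP
  have MIZ : HV.ST_MIZ := Pool.Agent.Helper60.HV.MIZ DBI V2I LOCY CSQM STB AIDM CIDM KINM ERR QHM INTM AED MORM PAN IBP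
  have PCN : Pool.Agent.Helper26.HW.ST_PCN := Pool.Agent.Helper24.HX.PCN KK
  have DIE : Pool.Agent.Helper26.HW.ST_DIE := Pool.Agent.Helper64.HW.DIE PHA PHB PHC MVP PCN
  have UNS : Pool.Agent.Helper26.HW.ST_UNS := Pool.Agent.Helper59.HW.UNS DIE FGZ FFZ NBZ
  have NE0 := Pool.Agent.Helper39.HW.NE0 FLD CUT
  have V2R0 : Pool.Agent.Helper26.HW.ST_V2R0 := Pool.Agent.Helper94.HW.V2R0 NBZ FFZ FGZ DIP KK FLD CUT UNS
  have MRZ0 : Pool.Agent.Helper26.HW.ST_MRZ0 := Pool.Agent.Helper48.HW.MRZ0 DBS V2R0 LOCY FLD CUT CSQM STB AIDM CIDM KINM ERR QHM INTM AED PAN IBP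
  have CUB : ST_CUB := st_CUB Pool.Agent.Helper25.PW.st_POI st_PAU
  obtain ⟨hINZ, hNRL, hNEZ, hATZ, hESB, hTUZ, hDRZ, hNRB, hTUPZ⟩ :=
    Pool.Agent.Helper26.HV.partB CUB INTM HLOC DEX KK PHC AED QHM
  have NRL : HV.ST_NRL := Pool.Agent.Helper26.HV.brNRL hNRB
  have TUPZ : HV.ST_TUPZ := Pool.Agent.Helper26.HV.brTUPZ hTUPZ
  have EXA := Pool.Agent.Helper43.HT.exa
  have LAT := Pool.Agent.Helper9.HT.LAT
  have CRS := Pool.Agent.Helper3.HT.CRS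
  have FST := Pool.Agent.Helper47.HT.FST EXA LAT CRS
  have FTA := Pool.Agent.Helper55.HT.FTA
  have NUM := Pool.Agent.Helper30.HT.NUM
  have ATM := Pool.Agent.Helper41.HT.ATM FST FTA NUM
  have SDF := Pool.Agent.Helper40.HT.SDF
  have KD2 := Pool.Agent.Helper38.HT.KD2
  have KLI := Pool.Agent.Helper87.HT.KLI
  have WBD := Pool.Agent.Helper77.HT.WBD SDF KD2 KLI
  have IAB := Pool.Agent.Helper18.HT.IAB WBD
  have PTC := Pool.Agent.Helper4.HT.PTC TRE ORB PT1 PT2 PHC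
  have TRX := Pool.Agent.Helper9.HT.TRX PTC ATM IAB PK4
  have TRP := Pool.Agent.Helper55.HT.TRP TRX
  have TLK := Pool.Agent.Helper38.HT.TLK hESB AED hNEZ hINZ QHM INTM
  have TLZ : HV.ST_TLZ := Pool.Agent.Helper90.HT.TLF TRP TLK APXM LMTM
  have PSZ : HV.ST_PSZ := Pool.Agent.Helper36.HV.PSZ MSZ NRL TUPZ FLD APXM LMTM QHM INTM POTB
  have PIZ : HV.ST_PIZ := Pool.Agent.Helper17.HV.PIZ MIZ MLZ NRL TUPZ FLD APXM LMTM QHM INTM POTB
  have PRZ0 : Pool.Agent.Helper26.HW.ST_PRZ0 := Pool.Agent.Helper64.HW.PRZ0 MRZ0 TUPZ LIMG CUT FLD APXM LMTM QHM INTM POTB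
  have SUMZ0 : Pool.Agent.Helper26.HW.ST_SUMZ0 := Pool.Agent.Helper81.HW.SUMZ0 PSZ PIZ PRZ0 FLD
  exact ⟨INTM, SUMZ0, TLZ⟩

/-- molecules with many heavy nuclei -/
theorem heavy (κ d : ℝ) (hκ : 1 ≤ κ) (hd : 0 < d) : ∃ C z0 : ℝ, 0 < C ∧ 0 < z0 ∧
    ∀ (z : ℝ) (n M : ℕ)
    (X : Fin M → R3) (Z : Fin M → ℕ) (E : ℝ) (φ : Wf n) (G : Fin n → Fin 3 → Wf n), 1 ≤ M →
    MolGround n X Z E φ G → z0 ≤ z → (∀ j, z ≤ Z j ∧ (Z j : ℝ) ≤ κ * z) →
    (∀ i j, i ≠ j → d ≤ nr (X i - X j)) → mom G ≤ C * z ^ (-(1 / 15) : ℝ) * kinG G :=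
  heavy0_of allW.1 allW.2.1 allW.2.2 κ d hκ hd

end Pool.Agent.Helper95.HV
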